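import Pool.Agent.Helper64.TX.Var
import Pool.Agent.Helper24.UG.Mass
import Pool.Agent.Helper7.UV.Mert

/-!
# OPT: the test sequence (O6, O7)

`Psi`: the sum over primes of `(1 - M ξ)² (1 - (1 - La ξ)₊²) sin (2 π x ξ) / p` is `π / 2` up to small errors.
-/

set_option autoImplicit false
open MeasureTheory Set Filter Topology
open Pool.Agent.Helper54.LG (qk)
open Pool.Agent.Helper57.TX (QX)

namespace Pool.Agent.Helper60.OPT

/-- Fubini -/
lemma g_eq (Z : ℝ) : ∫ u in (0:ℝ)..1, (1 - u) ^ 2 * (Real.sin (Z * u) / u) = 1 / 2 * ∫ b in (0:ℝ)..Z, qk 0 b := by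
  have h1 : ∫ u in (0:ℝ)..1, (1 - u) ^ 2 * (Real.sin (Z * u) / u) =
      ∫ u in (0:ℝ)..1, ∫ b in (0:ℝ)..Z, (1 - u) ^ 2 * Real.cos (b * u) := by
    apply intervalIntegral.integral_congr_ae
    filter_upwards [] with u hu
    rw [uIoc_of_le zero_le_one] at hu
    have hu0 : u ≠ 0 := hu.1.ne'
    rw [intervalIntegral.integral_const_mul]
    congr 1
    rw [intervalIntegral.integral_comp_mul_right (fun b => Real.cos b) hu0, integral_cos, zero_mul, Real.sin_zero, sub_zero,
      smul_eq_mul]
    field_simp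
  rw [h1, intervalIntegral_intervalIntegral_swap]
  · rw [← intervalIntegral.integral_const_mul]
    apply intervalIntegral.integral_congr
    intro b _
    simp only [qk]
    rw [← mul_assoc]
    norm_num
  · have hc : Continuous (Function.uncurry fun u b : ℝ => (1 - u) ^ 2 * Real.cos (b * u)) := by
      unfold Function.uncurry
      fun_prop
    apply (hc.continuousOn.integrableOn_compact (isCompact_uIcc.prod isCompact_uIcc)).mono_set
    exact prod_mono uIoc_subset_uIcc uIoc_subset_uIcc

/-- the main term -/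
lemma g_pi {Z : ℝ} (hZ : 0 < Z) : |(∫ u in (0:ℝ)..1, (1 - u) ^ 2 * (Real.sin (Z * u) / u)) - Real.pi / 2| ≤ 4 / Z := by
  have hi := Pool.Agent.Helper24.UG.qk_int
  have h1 : ∫ b in Ioi (0:ℝ), qk 0 b = Real.pi := by
    have h2 := Pool.Agent.Helper24.UG.qk_integral
    have h3 : ∫ b, qk 0 b = ∫ b, (fun y => qk 0 y) |b| := by
      congr 1
      funext b
      rcases abs_choice b with h | h
      · simp only [h]
      · simp only [h, Pool.Agent.Helper54.LG.qk_neg_right]
    rw [h3, integral_comp_abs (f := fun y => qk 0 y)] at h2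
    linarith
  have h2 : ∫ b in (0:ℝ)..Z, qk 0 b = Real.pi - ∫ b in Ioi Z, qk 0 b := by
    have h3 := intervalIntegral.integral_Ioi_sub_Ioi (hi.integrableOn (s := Ioi (0:ℝ))) hZ.le
    rw [← h3, h1]
  have h3 : 0 ≤ ∫ b in Ioi Z, qk 0 b := setIntegral_nonneg measurableSet_Ioi fun b _ => Pool.Agent.Helper54.LG.qk_zero_nonneg b
  have h4 : ∫ b in Ioi Z, qk 0 b ≤ 8 / Z := by
    have h5 : ∫ b in Ioi Z, qk 0 b ≤ ∫ b in Ioi Z, 8 * b ^ (-2 : ℝ) := by
      refine setIntegral_mono_on hi.integrableOn ((integrableOn_Ioi_rpow_of_lt (by norm_num) hZ).const_mul _) measurableSet_Ioi fun b hb => ?_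
      have hb0 : 0 < b := lt_trans hZ hb
      have h6 := Pool.Agent.Helper24.UG.qk_le b
      rw [Real.rpow_neg hb0.le, Real.rpow_two, ← div_eq_mul_inv, le_div_iff₀ (by positivity)]
      linarith
    refine h5.trans (le_of_eq ?_)
    rw [integral_const_mul, integral_Ioi_rpow_of_lt (by norm_num) hZ]
    have : (-2 : ℝ) + 1 = -1 := by norm_num
    rw [this, Real.rpow_neg_one]
    field_simp
  rw [g_eq, h2, show 1 / 2 * (Real.pi - ∫ b in Ioi Z, qk 0 b) - Real.pi / 2 = -(1 / 2 * ∫ b in Ioi Z, qk 0 b) by ring,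
    abs_neg, abs_of_nonneg (by positivity)]
  have : 1 / 2 * (8 / Z) = 4 / Z := by ring
  linarith

/-- `v cos v - sin v` -/
lemma vcos {v : ℝ} (hv : 0 ≤ v) : |v * Real.cos v - Real.sin v| ≤ 4 * v ^ 2 / (1 + v) := by
  rw [le_div_iff₀ (by linarith)]
  rcases le_or_gt v 1 with h | h
  · rcases hv.eq_or_lt with rfl | hv0
    · simp
    have h1 := Real.sin_gt_sub_cube hv0
    have h2 := Real.sin_le hv
    have h3 := Real.one_sub_sq_div_two_le_cos (x := v)
    have h4 := Real.cos_le_one v
    have h5 : |v * Real.cos v - Real.sin v| ≤ v ^ 3 := by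
      rw [abs_le]
      have h6 : v * Real.cos v ≤ v := by nlinarith
      have h7 : v - v ^ 3 / 2 ≤ v * Real.cos v := by
        have := mul_le_mul_of_nonneg_left h3 hv
        nlinarith
      have h8 : 0 < v ^ 3 := by positivity
      constructor <;> linarith
    have h6 := mul_le_mul_of_nonneg_right h5 (by linarith : 0 ≤ 1 + v)
    have h7 : v ^ 3 * (1 + v) ≤ 4 * v ^ 2 := by
      have : v ^ 3 * (1 + v) = v ^ 2 * (v * (1 + v)) := by ring
      rw [this, mul_comm 4]
      apply mul_le_mul_of_nonneg_left _ (sq_nonneg v)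
      nlinarith
    linarith
  · have h1 : |v * Real.cos v - Real.sin v| ≤ 2 * v := by
      have h2 : |v * Real.cos v| ≤ v := by
        rw [abs_mul, abs_of_pos (by linarith : 0 < v)]
        exact mul_le_of_le_one_right hv (Real.abs_cos_le_one v)
      have h3 := Real.abs_sin_le_one v
      have h4 := abs_sub (v * Real.cos v) (Real.sin v)
      linarith
    nlinarith [mul_le_mul_of_nonneg_right h1 (by linarith : 0 ≤ 1 + v)]

/-- the weight -/
noncomputable def HH (X c y : ℝ) : ℝ := (1 - y / X) ^ 2 * (Real.sin (c * y) / y)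

/-- its derivative -/
noncomputable def HH' (X c y : ℝ) : ℝ :=
  -(2 / X) * (1 - y / X) * (Real.sin (c * y) / y) + (1 - y / X) ^ 2 * ((c * y * Real.cos (c * y) - Real.sin (c * y)) / y ^ 2)

lemma HH_deriv {X c y : ℝ} (hy : y ≠ 0) : HasDerivAt (HH X c) (HH' X c y) y := by
  have h1 : HasDerivAt (fun y : ℝ => (1 - y / X) ^ 2) (-(2 / X) * (1 - y / X)) y := by
    have h2 : HasDerivAt (fun y : ℝ => 1 - y / X) (-(1 / X)) y := by
      simpa using ((hasDerivAt_id y).div_const X).const_sub 1
    refine (h2.fun_pow 2).congr_deriv ?_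
    push_cast
    ring
  have h2 : HasDerivAt (fun y : ℝ => Real.sin (c * y) / y) ((c * y * Real.cos (c * y) - Real.sin (c * y)) / y ^ 2) y := by
    have h3 : HasDerivAt (fun y : ℝ => c * y) c y := by
      simpa using (hasDerivAt_id y).const_mul c
    refine (h3.sin.fun_div (hasDerivAt_id y) hy).congr_deriv ?_
    simp only [id]
    ring
  exact h1.mul h2

lemma HH'_le {X c y : ℝ} (hX : 0 < X) (hc : 0 ≤ c) (hy : 0 < y) (hyX : y ≤ X) :
    |HH' X c y| ≤ 2 * c / X + 4 * c * (c / (1 + c * y)) := by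
  have h0 : 0 ≤ 1 - y / X := by
    have := (div_le_one hX).2 hyX
    linarith
  have h0' : 1 - y / X ≤ 1 := by
    have : 0 ≤ y / X := by positivity
    linarith
  have h1 : |Real.sin (c * y) / y| ≤ c := by
    rw [abs_div, abs_of_pos hy, div_le_iff₀ hy]
    have := Real.abs_sin_le_abs (x := c * y)
    rwa [abs_of_nonneg (by positivity : 0 ≤ c * y)] at this
  have h2 := vcos (v := c * y) (by positivity)
  have h3 : |(c * y * Real.cos (c * y) - Real.sin (c * y)) / y ^ 2| ≤ 4 * c * (c / (1 + c * y)) := by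
    rw [abs_div, abs_of_pos (by positivity : 0 < y ^ 2), div_le_iff₀ (by positivity)]
    refine h2.trans (le_of_eq ?_)
    field_simp
  unfold HH'
  refine (abs_add_le _ _).trans (add_le_add ?_ ?_)
  · rw [abs_mul, abs_mul, abs_neg, abs_of_pos (by positivity : 0 < 2 / X), abs_of_nonneg h0]
    calc 2 / X * (1 - y / X) * |Real.sin (c * y) / y| ≤ 2 / X * 1 * c := by gcongr
      _ = _ := by ring
  · rw [abs_mul, abs_of_nonneg (sq_nonneg _)]
    calc (1 - y / X) ^ 2 * _ ≤ 1 * (4 * c * (c / (1 + c * y))) := by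
          apply mul_le_mul (pow_le_one₀ h0 h0') h3 (abs_nonneg _) zero_le_one
      _ = _ := one_mul _

lemma HH'_int {X c : ℝ} (hX : 1 ≤ X) (hc : 0 ≤ c) :
    ∫ y in (1 / 2 : ℝ)..X, |HH' X c y| ≤ 2 * c + 4 * c * Real.log (1 + c * X) := by
  have hX0 : 0 < X := by linarith
  have hab : (1 / 2 : ℝ) ≤ X := by linarith
  have hpos : ∀ y ∈ Icc (1 / 2 : ℝ) X, 0 < y := fun y hy => by linarith [hy.1]
  have hcont : ContinuousOn (HH' X c) (Icc (1 / 2 : ℝ) X) := by
    unfold HH'
    apply ContinuousOn.add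
    · apply ContinuousOn.mul (by fun_prop)
      exact ContinuousOn.div (by fun_prop) (by fun_prop) fun y hy => (hpos y hy).ne'
    · apply ContinuousOn.mul (by fun_prop)
      exact ContinuousOn.div (by fun_prop) (by fun_prop) fun y hy => pow_ne_zero 2 (hpos y hy).ne'
  have hcont2 : ContinuousOn (fun y : ℝ => c / (1 + c * y)) (Icc (1 / 2 : ℝ) X) := by
    apply ContinuousOn.div (by fun_prop) (by fun_prop)
    intro y hy
    have := hpos y hy
    positivity
  have h1 : ∫ y in (1 / 2 : ℝ)..X, |HH' X c y| ≤ ∫ y in (1 / 2 : ℝ)..X, (2 * c / X + 4 * c * (c / (1 + c * y))) := by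
    apply intervalIntegral.integral_mono_on hab
    · apply ContinuousOn.intervalIntegrable
      rw [uIcc_of_le hab]
      exact hcont.abs
    · apply ContinuousOn.intervalIntegrable
      rw [uIcc_of_le hab]
      exact continuousOn_const.add (continuousOn_const.mul hcont2)
    · intro y hy
      exact HH'_le hX0 hc (hpos y hy) hy.2
  have h2 : ∫ y in (1 / 2 : ℝ)..X, c / (1 + c * y) = Real.log (1 + c * X) - Real.log (1 + c * (1 / 2)) := by
    apply intervalIntegral.integral_eq_sub_of_hasDerivAt (f := fun y => Real.log (1 + c * y))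
    · intro y hy
      rw [uIcc_of_le hab] at hy
      have h3 : HasDerivAt (fun y : ℝ => 1 + c * y) c y := by
        simpa using ((hasDerivAt_id y).const_mul c).const_add 1
      have := hpos y hy
      exact h3.log (by positivity)
    · apply ContinuousOn.intervalIntegrable
      rw [uIcc_of_le hab]
      exact hcont2
  rw [intervalIntegral.integral_add (by simp) (by
    apply ContinuousOn.intervalIntegrable
    rw [uIcc_of_le hab]
    exact continuousOn_const.mul hcont2), intervalIntegral.integral_const, intervalIntegral.integral_const_mul, h2,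
    smul_eq_mul] at h1
  have h3 : 0 ≤ Real.log (1 + c * (1 / 2)) := Real.log_nonneg (by nlinarith)
  have h4 : (X - 1 / 2) * (2 * c / X) ≤ 2 * c := by
    rw [← mul_div_assoc, div_le_iff₀ hX0]
    nlinarith
  have h5 : 4 * c * (Real.log (1 + c * X) - Real.log (1 + c * (1 / 2))) ≤ 4 * c * Real.log (1 + c * X) := by
    apply mul_le_mul_of_nonneg_left _ (by positivity)
    linarith
  linarith

lemma HH_main {X c : ℝ} (hX : 1 ≤ X) (hc : 0 < c) :
    |(∫ y in (1 / 2 : ℝ)..X, HH X c y) - Real.pi / 2| ≤ c / 2 + 4 / (c * X) := by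
  have hX0 : 0 < X := by linarith
  have h1 : ∫ y in (0:ℝ)..X, HH X c y = ∫ u in (0:ℝ)..1, (1 - u) ^ 2 * (Real.sin (c * X * u) / u) := by
    have h2 := intervalIntegral.integral_comp_mul_right (a := 0) (b := 1) (fun y => HH X c y) hX0.ne'
    rw [zero_mul, one_mul, smul_eq_mul] at h2
    have h3 : ∫ y in (0:ℝ)..X, HH X c y = X * ∫ u in (0:ℝ)..1, HH X c (u * X) := by
      rw [h2]
      field_simp
    rw [h3, ← intervalIntegral.integral_const_mul]
    apply intervalIntegral.integral_congr
    intro u _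
    simp only [HH]
    rw [mul_div_assoc, div_self hX0.ne', mul_one, show c * (u * X) = c * X * u by ring]
    field_simp
  have hb : ∀ y : ℝ, y ∈ uIoc 0 X → ‖HH X c y‖ ≤ c := by
    intro y hy
    rw [uIoc_of_le hX0.le] at hy
    have h0 : 0 ≤ 1 - y / X := by
      have := (div_le_one hX0).2 hy.2
      linarith
    have h0' : 1 - y / X ≤ 1 := by
      have : 0 ≤ y / X := div_nonneg hy.1.le hX0.le
      linarith
    have h1 : |Real.sin (c * y) / y| ≤ c := by
      rw [abs_div, abs_of_pos hy.1, div_le_iff₀ hy.1]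
      have := Real.abs_sin_le_abs (x := c * y)
      rwa [abs_of_nonneg (mul_nonneg hc.le hy.1.le)] at this
    unfold HH
    rw [Real.norm_eq_abs, abs_mul, abs_of_nonneg (sq_nonneg _)]
    calc _ ≤ 1 * c := mul_le_mul (pow_le_one₀ h0 h0') h1 (abs_nonneg _) zero_le_one
      _ = c := one_mul _
  have hm : Measurable (HH X c) := by
    unfold HH
    fun_prop
  have hint : IntervalIntegrable (HH X c) volume 0 X := by
    have hfin : IntegrableOn (fun _ : ℝ => c) (uIoc 0 X) := by
      rw [uIoc_of_le hX0.le]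
      exact (continuous_const.integrableOn_Icc (a := 0) (b := X)).mono_set Ioc_subset_Icc_self
    rw [intervalIntegrable_iff]
    apply Integrable.mono' (g := fun _ => c) hfin hm.aestronglyMeasurable
    filter_upwards [ae_restrict_mem measurableSet_uIoc] with y hy
    exact hb y hy
  have hsub1 : uIcc (0:ℝ) (1 / 2) ⊆ uIcc 0 X := by
    rw [uIcc_of_le (by norm_num), uIcc_of_le hX0.le]
    exact Icc_subset_Icc_right (by linarith)
  have hsub2 : uIcc (1 / 2 : ℝ) X ⊆ uIcc 0 X := by
    rw [uIcc_of_le (by linarith), uIcc_of_le hX0.le]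
    exact Icc_subset_Icc_left (by norm_num)
  have h4 := intervalIntegral.integral_add_adjacent_intervals (hint.mono_set hsub1) (hint.mono_set hsub2)
  have h5 : |∫ y in (0:ℝ)..(1 / 2), HH X c y| ≤ c / 2 := by
    have h6 := intervalIntegral.norm_integral_le_of_norm_le_const (a := 0) (b := 1 / 2) (f := HH X c) (C := c) (fun y hy => by
      apply hb y
      rw [uIoc_of_le (by norm_num)] at hy
      rw [uIoc_of_le hX0.le]
      exact ⟨hy.1, hy.2.trans (by linarith)⟩)
    rw [Real.norm_eq_abs] at h6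
    refine h6.trans (le_of_eq ?_)
    rw [sub_zero, abs_of_pos (by norm_num)]
    ring
  have h6 := g_pi (Z := c * X) (by positivity)
  rw [← h1] at h6
  have h7 : (∫ y in (1 / 2 : ℝ)..X, HH X c y) - Real.pi / 2 =
      (∫ y in (0:ℝ)..X, HH X c y) - Real.pi / 2 - ∫ y in (0:ℝ)..(1 / 2), HH X c y := by linarith
  rw [h7]
  have h8 := abs_sub ((∫ y in (0:ℝ)..X, HH X c y) - Real.pi / 2) (∫ y in (0:ℝ)..(1 / 2), HH X c y)
  linarith

/-- sum of `log p / p` up to `u` -/
lemma log_sum : ∃ E : ℝ, 0 < E ∧ ∀ u : ℝ, 0 ≤ u → ∀ P : Finset ℕ, (∀ p ∈ P, p.Prime ∧ Real.log p ≤ u) →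
    ∑ p ∈ P, Real.log p / p ≤ u + E := by
  obtain ⟨E, hE, h⟩ := Pool.Agent.Helper7.UV.mert_window
  refine ⟨E, hE, fun u hu P hP => ?_⟩
  have h1 := h 0 u le_rfl hu (QX u) (fun p => by
    rw [Pool.Agent.Helper64.TX.mem_QX]
    constructor
    · rintro ⟨h2, h3⟩
      exact ⟨h2, Real.log_pos (by exact_mod_cast h2.one_lt), h3⟩
    · rintro ⟨h2, _, h3⟩
      exact ⟨h2, h3⟩)
  have h2 : ∑ p ∈ P, Real.log p / p ≤ ∑ p ∈ QX u, Real.log p / p := by
    apply Finset.sum_le_sum_of_subset_of_nonneg
    · intro p hp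
      exact Pool.Agent.Helper64.TX.mem_QX.2 (hP p hp)
    · intro p _ _
      exact div_nonneg (Real.log_natCast_nonneg p) (Nat.cast_nonneg p)
  have h3 := (abs_le.1 h1).2
  linarith

/-- (O6) -/
theorem psi : ∃ C : ℝ, 0 < C ∧ ∀ T M La x : ℝ, 1 ≤ M → M ≤ x → x ≤ La → La ≤ Real.log T →
    |∑ p ∈ QX (Real.log T / M), (1 - M * (Real.log p / Real.log T)) ^ 2 *
        (1 - max 0 (1 - La * (Real.log p / Real.log T)) ^ 2) * Real.sin (2 * Real.pi * x * (Real.log p / Real.log T)) / p -
      Real.pi / 2| ≤ C * (M / x + x / La + x / Real.log T * (1 + Real.log (x / M))) := by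
  have hpi := Real.pi_pos
  have hpi4 := Real.pi_le_four
  obtain ⟨E, hE, hps⟩ := Pool.Agent.Helper7.UV.prime_sum
  obtain ⟨E1, hE1, hls⟩ := log_sum
  refine ⟨8 + 200 * E + 8 * E1, by positivity, fun T M La x hM hMx hxL hL => ?_⟩
  set l := Real.log T with hl
  have hM0 : 0 < M := by linarith
  have hx0 : 0 < x := by linarith
  have hLa0 : 0 < La := by linarith
  have hl1 : 1 ≤ l := by linarith
  have hl0 : 0 < l := by linarith
  obtain ⟨X, hX⟩ : ∃ X : ℝ, X = l / M := ⟨_, rfl⟩
  obtain ⟨c, hc⟩ : ∃ c : ℝ, c = 2 * Real.pi * x / l := ⟨_, rfl⟩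
  have hX1 : 1 ≤ X := by
    rw [hX, le_div_iff₀ hM0]
    linarith
  have hX0 : 0 < X := by linarith
  have hc0 : 0 < c := by
    rw [hc]
    positivity
  rw [← hX]
  have hlogp : ∀ p ∈ QX X, p.Prime ∧ (1 / 2 : ℝ) < Real.log p ∧ Real.log p ≤ X := by
    intro p hp
    rw [Pool.Agent.Helper64.TX.mem_QX] at hp
    refine ⟨hp.1, ?_, hp.2⟩
    have h2 : Real.log 2 ≤ Real.log p := Real.log_le_log (by norm_num) (by exact_mod_cast hp.1.two_le)
    have := Real.log_two_gt_d9
    linarith
  have h1 := hps (1 / 2) X (by norm_num) (by linarith) (QX X) (fun p => ⟨fun hp => hlogp p hp, fun hp =>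
    Pool.Agent.Helper64.TX.mem_QX.2 ⟨hp.1, hp.2.2⟩⟩) (HH X c) (HH' X c) (fun u hu => HH_deriv (by linarith [hu.1] |> fun h : 0 < u => h.ne')) (by
      have hpos : ∀ y ∈ Icc (1 / 2 : ℝ) X, 0 < y := fun y hy => by linarith [hy.1]
      unfold HH'
      apply ContinuousOn.add
      · apply ContinuousOn.mul (by fun_prop)
        exact ContinuousOn.div (by fun_prop) (by fun_prop) fun y hy => (hpos y hy).ne'
      · apply ContinuousOn.mul (by fun_prop)
        exact ContinuousOn.div (by fun_prop) (by fun_prop) fun y hy => pow_ne_zero 2 (hpos y hy).ne')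
  have h2 := HH'_int hX1 hc0.le
  have h3 := HH_main hX1 hc0
  have h4 : HH X c X = 0 := by
    unfold HH
    rw [div_self hX0.ne']
    ring
  rw [h4, abs_zero, zero_add] at h1
  -- the sum with the weight HH
  have h5 : ∑ p ∈ QX X, Real.log p / p * HH X c (Real.log p) =
      ∑ p ∈ QX X, (1 - M * (Real.log p / l)) ^ 2 * Real.sin (2 * Real.pi * x * (Real.log p / l)) / p := by
    refine Finset.sum_congr rfl fun p hp => ?_
    have h6 := hlogp p hp
    have h7 : Real.log p ≠ 0 := by linarith [h6.2.1] |> fun h : 0 < Real.log p => h.ne'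
    unfold HH
    rw [show Real.log p / X = M * (Real.log p / l) by rw [hX]; field_simp,
      show c * Real.log p = 2 * Real.pi * x * (Real.log p / l) by rw [hc]; ring]
    field_simp
  -- the part of small primes
  have h6 : |∑ p ∈ QX X, (1 - M * (Real.log p / l)) ^ 2 * max 0 (1 - La * (Real.log p / l)) ^ 2 *
      Real.sin (2 * Real.pi * x * (Real.log p / l)) / p| ≤ c * (l / La + E1) := by
    have h7 : ∀ p ∈ QX X, |(1 - M * (Real.log p / l)) ^ 2 * max 0 (1 - La * (Real.log p / l)) ^ 2 *
        Real.sin (2 * Real.pi * x * (Real.log p / l)) / p| ≤ c * (if Real.log p ≤ l / La then Real.log p / p else 0) := by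
      intro p hp
      have h8 := hlogp p hp
      have hp0 : (0:ℝ) < p := by exact_mod_cast h8.1.pos
      have hlp : 0 < Real.log p := by linarith [h8.2.1]
      split_ifs with h
      · have h9 : 0 ≤ 1 - M * (Real.log p / l) := by
          have : M * (Real.log p / l) ≤ 1 := by
            rw [← mul_div_assoc, div_le_one hl0, mul_comm, ← le_div_iff₀ hM0, ← hX]
            exact h8.2.2
          linarith
        have h9' : 1 - M * (Real.log p / l) ≤ 1 := by
          have : 0 ≤ M * (Real.log p / l) := by positivity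
          linarith
        have h10 : max 0 (1 - La * (Real.log p / l)) ≤ 1 := by
          apply max_le zero_le_one
          have : 0 ≤ La * (Real.log p / l) := by positivity
          linarith
        have h11 : |Real.sin (2 * Real.pi * x * (Real.log p / l))| ≤ c * Real.log p := by
          refine (Real.abs_sin_le_abs).trans (le_of_eq ?_)
          rw [abs_of_nonneg (by positivity), hc]
          ring
        rw [abs_div, abs_of_pos hp0, abs_mul, abs_mul, abs_of_nonneg (sq_nonneg _), abs_of_nonneg (sq_nonneg _),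
          show c * (Real.log p / p) = c * Real.log p / p by ring]
        apply div_le_div_of_nonneg_right _ hp0.le
        calc _ ≤ 1 * 1 * (c * Real.log p) := by
              apply mul_le_mul (mul_le_mul (pow_le_one₀ h9 h9') (pow_le_one₀ (le_max_left _ _) h10) (sq_nonneg _) zero_le_one) h11
                (abs_nonneg _) (by norm_num)
          _ = _ := by ring
      · push Not at h
        have h9 : 1 - La * (Real.log p / l) ≤ 0 := by
          have : 1 ≤ La * (Real.log p / l) := by
            rw [← mul_div_assoc, one_le_div hl0, mul_comm, ← div_le_iff₀ hLa0]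
            exact h.le
          linarith
        rw [max_eq_left h9]
        simp
    refine (Finset.abs_sum_le_sum_abs _ _).trans ((Finset.sum_le_sum h7).trans ?_)
    rw [← Finset.mul_sum, ← Finset.sum_filter]
    apply mul_le_mul_of_nonneg_left _ hc0.le
    apply hls (l / La) (by positivity)
    intro p hp
    rw [Finset.mem_filter] at hp
    exact ⟨(hlogp p hp.1).1, hp.2⟩
  have h7 : ∑ p ∈ QX X, (1 - M * (Real.log p / l)) ^ 2 * (1 - max 0 (1 - La * (Real.log p / l)) ^ 2) *
      Real.sin (2 * Real.pi * x * (Real.log p / l)) / p =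
      ∑ p ∈ QX X, (1 - M * (Real.log p / l)) ^ 2 * Real.sin (2 * Real.pi * x * (Real.log p / l)) / p -
      ∑ p ∈ QX X, (1 - M * (Real.log p / l)) ^ 2 * max 0 (1 - La * (Real.log p / l)) ^ 2 *
        Real.sin (2 * Real.pi * x * (Real.log p / l)) / p := by
    rw [← Finset.sum_sub_distrib]
    refine Finset.sum_congr rfl fun p _ => ?_
    ring
  rw [h7, ← h5]
  -- numbers
  have hcX : c * X = 2 * Real.pi * (x / M) := by
    rw [hc, hX]
    field_simp
  have hxM : 1 ≤ x / M := (one_le_div hM0).2 hMx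
  have hlog0 : 0 ≤ Real.log (x / M) := Real.log_nonneg hxM
  have h8 : Real.log (1 + c * X) ≤ 3 + Real.log (x / M) := by
    have h9 : 1 + c * X ≤ Real.exp 3 * (x / M) := by
      rw [hcX]
      have h10 : (9:ℝ) ≤ Real.exp 3 := by
        have h11 := Real.exp_one_gt_d9
        have h12 : Real.exp 3 = Real.exp 1 ^ 3 := by rw [← Real.exp_nat_mul]; norm_num
        rw [h12]
        calc (9:ℝ) ≤ 2.7 ^ 3 := by norm_num
          _ ≤ _ := by gcongr; linarith
      nlinarith
    have h10 := Real.log_le_log (by positivity) h9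
    rw [Real.log_mul (Real.exp_pos 3).ne' (by positivity), Real.log_exp] at h10
    exact h10
  have h9 : 4 / (c * X) ≤ M / x := by
    rw [hcX, show M / x = 4 / (4 * (x / M)) by field_simp]
    apply div_le_div_of_nonneg_left (by norm_num) (by positivity)
    nlinarith [Real.pi_gt_three]
  have hcl : c ≤ 8 * (x / l) := by
    rw [hc, mul_div_assoc]
    apply mul_le_mul_of_nonneg_right _ (by positivity)
    linarith
  have hcla : c * (l / La) ≤ 8 * (x / La) := by
    rw [hc, show 2 * Real.pi * x / l * (l / La) = 2 * Real.pi * (x / La) by field_simp]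
    apply mul_le_mul_of_nonneg_right _ (by positivity)
    linarith
  set S1 := ∑ p ∈ QX X, Real.log p / p * HH X c (Real.log p) with hS1
  set S2 := ∑ p ∈ QX X, (1 - M * (Real.log p / l)) ^ 2 * max 0 (1 - La * (Real.log p / l)) ^ 2 *
        Real.sin (2 * Real.pi * x * (Real.log p / l)) / p with hS2
  set I := ∫ y in (1 / 2 : ℝ)..X, HH X c y with hI
  have h10 : |S1 - S2 - Real.pi / 2| ≤ |S1 - I| + |I - Real.pi / 2| + |S2| := by
    have e : S1 - S2 - Real.pi / 2 = (S1 - I) + (I - Real.pi / 2) - S2 := by ring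
    rw [e]
    refine (abs_sub _ _).trans ?_
    have := abs_add_le (S1 - I) (I - Real.pi / 2)
    linarith
  have h11 : |S1 - I| ≤ E * (2 * c + 4 * c * (3 + Real.log (x / M))) := by
    refine h1.trans (mul_le_mul_of_nonneg_left (h2.trans ?_) hE.le)
    have := mul_le_mul_of_nonneg_left h8 (by positivity : 0 ≤ 4 * c)
    linarith
  have h12 : E * (2 * c + 4 * c * (3 + Real.log (x / M))) ≤ 200 * E * (x / l * (1 + Real.log (x / M))) := by
    have h13 : 2 * c + 4 * c * (3 + Real.log (x / M)) ≤ c * (14 * (1 + Real.log (x / M))) := by nlinarith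
    have h14 : c * (14 * (1 + Real.log (x / M))) ≤ 8 * (x / l) * (14 * (1 + Real.log (x / M))) :=
      mul_le_mul_of_nonneg_right hcl (by positivity)
    have h15 : 0 ≤ x / l * (1 + Real.log (x / M)) := by positivity
    calc _ ≤ E * (8 * (x / l) * (14 * (1 + Real.log (x / M)))) := mul_le_mul_of_nonneg_left (h13.trans h14) hE.le
      _ = 112 * (E * (x / l * (1 + Real.log (x / M)))) := by ring
      _ ≤ 200 * (E * (x / l * (1 + Real.log (x / M)))) := mul_le_mul_of_nonneg_right (by norm_num) (by positivity)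
      _ = _ := by ring
  have h13 : |S2| ≤ 8 * (x / La) + 8 * E1 * (x / l) := by
    refine h6.trans ?_
    have := mul_le_mul_of_nonneg_right hcl hE1.le
    nlinarith
  have h14 : x / l ≤ x / l * (1 + Real.log (x / M)) := le_mul_of_one_le_right (by positivity) (by linarith)
  have h15 : 0 ≤ x / La := by positivity
  have h16 : 0 ≤ M / x := by positivity
  have h17 : 0 ≤ x / l := by positivity
  have h18 : 8 * E1 * (x / l) ≤ 8 * E1 * (x / l * (1 + Real.log (x / M))) := mul_le_mul_of_nonneg_left h14 (by positivity)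
  set w := x / l * (1 + Real.log (x / M)) with hw
  have hw0 : 0 ≤ w := by positivity
  have h19 : (8 + 200 * E + 8 * E1) * (M / x + x / La + w) = 8 * (M / x) + 8 * (x / La) + 8 * w + (200 * E + 8 * E1) * w +
      (200 * E + 8 * E1) * (M / x + x / La) := by ring
  have h20 : 0 ≤ (200 * E + 8 * E1) * (M / x + x / La) := by positivity
  rw [h19]
  nlinarith

/-- sums of `1/p`, upper bound -/
lemma recip_up : ∃ E : ℝ, 0 < E ∧ ∀ a b : ℝ, 1 ≤ a → a ≤ b → ∀ P : Finset ℕ,
    (∀ p : ℕ, p ∈ P ↔ p.Prime ∧ a < Real.log p ∧ Real.log p ≤ b) → ∑ p ∈ P, 1 / (p:ℝ) ≤ Real.log (b / a) + E := by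
  obtain ⟨E, hE, H⟩ := Pool.Agent.Helper7.UV.prime_sum
  refine ⟨E, hE, fun a b ha hab P hP => ?_⟩
  have ha0 : 0 < a := by linarith
  have hb0 : 0 < b := by linarith
  have hne : ∀ u ∈ Icc a b, u ≠ 0 := fun u hu => by linarith [hu.1] |> fun h : 0 < u => h.ne'
  have h1 := H a b ha0.le hab P hP (fun u => u⁻¹) (fun u => -(u ^ 2)⁻¹) (fun u hu => hasDerivAt_inv (hne u hu)) (by
    apply ContinuousOn.neg
    apply ContinuousOn.inv₀ (by fun_prop)
    intro u hu
    exact pow_ne_zero 2 (hne u hu))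
  have h2 : ∑ p ∈ P, Real.log p / p * (Real.log p)⁻¹ = ∑ p ∈ P, 1 / (p:ℝ) := by
    refine Finset.sum_congr rfl fun p hp => ?_
    have h3 := (hP p).1 hp
    have h4 : Real.log p ≠ 0 := by linarith [h3.2.1] |> fun h : 0 < Real.log p => h.ne'
    field_simp
  have h3 : ∫ u in a..b, u⁻¹ = Real.log (b / a) := integral_inv_of_pos ha0 hb0
  have h4 : ∫ u in a..b, |-(u ^ 2)⁻¹| = a⁻¹ - b⁻¹ := by
    have h5 : ∫ u in a..b, |-(u ^ 2)⁻¹| = ∫ u in a..b, (u ^ 2)⁻¹ := by
      congr 1
      funext u
      rw [abs_neg, abs_of_nonneg (by positivity)]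
    rw [h5]
    have h6 := intervalIntegral.integral_eq_sub_of_hasDerivAt (a := a) (b := b) (f := fun u : ℝ => -u⁻¹) (f' := fun u => (u ^ 2)⁻¹)
      (fun u hu => by
        rw [uIcc_of_le hab] at hu
        have := (hasDerivAt_inv (hne u hu)).fun_neg
        rwa [neg_neg] at this) (by
        apply ContinuousOn.intervalIntegrable
        rw [uIcc_of_le hab]
        apply ContinuousOn.inv₀ (by fun_prop)
        intro u hu
        exact pow_ne_zero 2 (hne u hu))
    rw [h6]
    ring
  rw [h2, h3, h4, abs_of_pos (inv_pos.2 hb0)] at h1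
  have h5 := (abs_le.1 h1).2
  have h6 : b⁻¹ + (a⁻¹ - b⁻¹) ≤ 1 := by
    have : a⁻¹ ≤ 1 := inv_le_one_of_one_le₀ ha
    linarith
  have h7 := mul_le_mul_of_nonneg_left h6 hE.le
  linarith

/-- (O7) -/
theorem mass : ∃ C : ℝ, 0 < C ∧ ∀ T M La : ℝ, 1 ≤ M → M ≤ La → La ≤ Real.log T →
    ∑ p ∈ QX (Real.log T / M), (1 - max 0 (1 - La * (Real.log p / Real.log T)) ^ 2) ^ 2 / p ≤ Real.log (La / M) + C := by
  obtain ⟨E, hE, hrec⟩ := recip_up
  obtain ⟨E1, hE1, hls⟩ := log_sum
  refine ⟨E + 2 + 2 * E1, by positivity, fun T M La hM hML hL => ?_⟩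
  set l := Real.log T with hl
  have hM0 : 0 < M := by linarith
  have hLa0 : 0 < La := by linarith
  have hl0 : 0 < l := by linarith
  set a := l / La with ha
  have ha1 : 1 ≤ a := (one_le_div hLa0).2 hL
  have hab : a ≤ l / M := div_le_div_of_nonneg_left hl0.le hM0 hML
  rw [← Finset.sum_filter_add_sum_filter_not (QX (l / M)) (fun p : ℕ => a < Real.log p)]
  have h1 : ∑ p ∈ (QX (l / M)).filter (fun p : ℕ => a < Real.log p), (1 - max 0 (1 - La * (Real.log p / l)) ^ 2) ^ 2 / (p:ℝ) ≤
      Real.log (La / M) + E := by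
    have h2 := hrec a (l / M) ha1 hab ((QX (l / M)).filter fun p : ℕ => a < Real.log p) (fun p => by
      rw [Finset.mem_filter, Pool.Agent.Helper64.TX.mem_QX]
      tauto)
    rw [show l / M / a = La / M by rw [ha]; field_simp] at h2
    refine le_trans (Finset.sum_le_sum fun p hp => ?_) h2
    rw [Finset.mem_filter, Pool.Agent.Helper64.TX.mem_QX] at hp
    have hp0 : (0:ℝ) < p := by exact_mod_cast hp.1.1.pos
    apply div_le_div_of_nonneg_right _ hp0.le
    have h9 : 1 - La * (Real.log p / l) ≤ 0 := by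
      have : 1 ≤ La * (Real.log p / l) := by
        rw [← mul_div_assoc, one_le_div hl0, mul_comm, ← div_le_iff₀ hLa0]
        exact hp.2.le
      linarith
    rw [max_eq_left h9]
    norm_num
  have h2 : ∑ p ∈ (QX (l / M)).filter (fun p : ℕ => ¬ a < Real.log p), (1 - max 0 (1 - La * (Real.log p / l)) ^ 2) ^ 2 / (p:ℝ) ≤ 2 + 2 * E1 := by
    have h3 : ∑ p ∈ (QX (l / M)).filter (fun p : ℕ => ¬ a < Real.log p), (1 - max 0 (1 - La * (Real.log p / l)) ^ 2) ^ 2 / (p:ℝ) ≤
        ∑ p ∈ (QX (l / M)).filter (fun p : ℕ => ¬ a < Real.log p), 2 * (La / l) * (Real.log p / p) := by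
      apply Finset.sum_le_sum
      intro p hp
      rw [Finset.mem_filter, Pool.Agent.Helper64.TX.mem_QX] at hp
      have hp0 : (0:ℝ) < p := by exact_mod_cast hp.1.1.pos
      have hlp : 0 < Real.log p := Real.log_pos (by exact_mod_cast hp.1.1.one_lt)
      rw [show 2 * (La / l) * (Real.log p / p) = 2 * (La / l) * Real.log p / p by ring]
      apply div_le_div_of_nonneg_right _ hp0.le
      have h4 : La * (Real.log p / l) ≤ 1 := by
        rw [← mul_div_assoc, div_le_one hl0, mul_comm, ← le_div_iff₀ hLa0]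
        exact not_lt.1 hp.2
      have h5 : 0 ≤ La * (Real.log p / l) := by positivity
      rw [max_eq_right (by linarith)]
      set y := La * (Real.log p / l) with hy
      have h6 : 2 * (La / l) * Real.log p = 2 * y := by
        rw [hy]
        ring
      rw [h6]
      have h7 : 1 - (1 - y) ^ 2 = y * (2 - y) := by ring
      have h8 : 0 ≤ y * (2 - y) := mul_nonneg h5 (by linarith)
      have h9 : y * (2 - y) ≤ 1 := by nlinarith [sq_nonneg (1 - y)]
      rw [h7, sq]
      calc y * (2 - y) * (y * (2 - y)) ≤ y * (2 - y) * 1 := mul_le_mul_of_nonneg_left h9 h8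
        _ ≤ 2 * y := by nlinarith [sq_nonneg y]
    refine h3.trans ?_
    rw [← Finset.mul_sum]
    have h4 := hls a (by linarith) ((QX (l / M)).filter fun p : ℕ => ¬ a < Real.log p) (fun p hp => by
      rw [Finset.mem_filter, Pool.Agent.Helper64.TX.mem_QX] at hp
      exact ⟨hp.1.1, not_lt.1 hp.2⟩)
    have h5 := mul_le_mul_of_nonneg_left h4 (by positivity : 0 ≤ 2 * (La / l))
    refine h5.trans ?_
    rw [mul_add, show 2 * (La / l) * a = 2 by rw [ha]; field_simp]
    have h6 : La / l ≤ 1 := (div_le_one hl0).2 hL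
    nlinarith
  linarith

end Pool.Agent.Helper60.OPT
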